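import Pool.Agent.Q299.PPR.Core

/-!
# The proportion of the primes `p` with `h(p) = 1`, read off from principal products of random tiny prime ideals

For a prime `p` let `K` be the field of the square root of `p`, `Cl` its class group and `h(p)` its
class number.  Let `a > 2` and let `M p ≥ 500 log p / log log p` for all primes `p`.  Choose `M p`
prime ideals of norm at most `(log p)^a` independently at random.  Let `F a M n k X` be the mean
value, over the primes `p ≤ X`, of the probability that for `k` independent products of this kind
all classes are `n`-th powers in `Cl` (`n = 0`: all products are principal).  Let `R n X` be the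
proportion of the primes `p ≤ X` with `h(p)` coprime to `n`; for `n = 0` this is the proportion of
the primes with `h(p) = 1`.

* `F a M n k X` minus the mean of the `k`-th powers of the inverses of the indices of the groups of
  the `n`-th powers in `Cl` (`n = 0`: of the inverses of the class numbers) tends to zero.
* `R n X - ε ≤ F a M n k X ≤ R n X + (1 - R n X) / 2^k + ε` for all large `X`.
* `R n X` tends to `c` if and only if `F a M n k X` tends to `c` as first `X` and then `k` tends to
  infinity (for `n = 0` and the constant `c` of Cohen and Lenstra this is the question).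
-/

set_option autoImplicit false

namespace Pool.Agent.Results.MP_d0fd9b_nt.CoprimeProportion

open Filter Finset NumberField Pool.Agent.Q299.PPR

theorem result : ∀ a : ℝ, 2 < a → ∀ M : ℕ → ℕ,
    (∀ p : ℕ, p.Prime → 500 * (Real.log p / Real.log (Real.log p)) ≤ M p) →
    (∀ n k : ℕ, Tendsto (fun X : ℕ => F a M n k X - mean X (fun p => (1 / (ind n p : ℝ)) ^ k))
      atTop (nhds 0)) ∧
    (∀ n k : ℕ, ∀ ε : ℝ, 0 < ε → ∀ᶠ X : ℕ in atTop, R n X - ε ≤ F a M n k X ∧
      F a M n k X ≤ R n X + (1 - R n X) / 2 ^ k + ε) ∧
    (∀ (n : ℕ) (c : ℝ), Tendsto (R n) atTop (nhds c) ↔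
      ∀ ε : ℝ, 0 < ε → ∀ᶠ k in atTop, ∀ᶠ X in atTop, |F a M n k X - c| ≤ ε) :=
  fun a ha M hM => ⟨partA a ha M hM, partB a ha M hM, partC a ha M hM⟩

end Pool.Agent.Results.MP_d0fd9b_nt.CoprimeProportion
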