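import Pool.Agent.Q299.PPR.Group

/-!
# The limiting law of the class group for prime radicands, read off from principal products and products with `n`-th power class

For a prime `p` let `K` be the field of the square root of `p` and `Cl` its class group.  Let
`a > 2` and let `M p ≥ 500 log p / log log p` for all primes `p`.  For a finite set `S` of
exponents `n` and numbers `κ n` let `FS a M S κ X` be the mean value over the primes `p ≤ X` of the
probability that of independent products of `M p` independent random prime ideals of norm at most
`(log p)^a`, `κ n` products for every `n` in `S`, those that belong to `n` have a class that is an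
`n`-th power in `Cl` (`n = 0`: are principal).

Let `G 0, G 1, ...` be pairwise non-isomorphic finite abelian groups and let `w` be a probability
law on the indices.  The class group has the limiting law `w` if and only if for all `S` and `κ` the
frequency `FS a M S κ X` tends to the sum over `i` of `w i` times the product over `n` in `S` of the
`κ n`-th powers of the inverses of the indices of the groups of the `n`-th powers in `G i`.
-/

set_option autoImplicit false

namespace Pool.Agent.Results.MP_d0fd9b_nt.LawOfClassGroup

open Filter Finset NumberField Pool.Agent.Q299.PPR

theorem result : ∀ a : ℝ, 2 < a → ∀ M : ℕ → ℕ,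
    (∀ p : ℕ, p.Prime → 500 * (Real.log p / Real.log (Real.log p)) ≤ M p) →
    ∀ (G : ℕ → Type) [∀ i, CommGroup (G i)] [∀ i, Finite (G i)],
      (∀ i j, Nonempty (G i ≃* G j) → i = j) →
      ∀ w : ℕ → ℝ, (∀ i, 0 ≤ w i) → HasSum w 1 →
      ((∀ i, Tendsto (PG (G i)) atTop (nhds (w i))) ↔
        ∀ (S : Finset ℕ) (κ : ℕ → ℕ), Tendsto (FS a M S κ) atTop
          (nhds (∑' i, w i * ∏ n ∈ S, (1 / (gind (G i) n : ℝ)) ^ κ n))) :=
  fun a ha M hM G _ _ hG w hw hs => partG G hG a ha M hM w hw hs

end Pool.Agent.Results.MP_d0fd9b_nt.LawOfClassGroup
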