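import Pool.Agent.Q299.PPR.Core

/-!
# The limiting law of `h(p)`, read off from principal products of random tiny prime ideals

For a prime `p` let `K` be the field of the square root of `p` and `h(p)` its class number.  Let
`a > 2` and let `M p ≥ 500 log p / log log p` for all primes `p`.  Choose `M p` prime ideals of norm
at most `(log p)^a` independently at random.  Let `F a M 0 k X` be the mean value, over the primes
`p ≤ X`, of the probability that `k` independent products of this kind all are principal.

The class number has the limiting law `w` (a probability law on the positive integers) if and only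
if for every `k ≥ 1` the frequency `F a M 0 k X` tends to the sum of `w j / j^k`.
-/

set_option autoImplicit false

namespace Pool.Agent.Results.MP_d0fd9b_nt.LawOfClassNumber

open Filter Finset NumberField Pool.Agent.Q299.PPR

theorem result : ∀ a : ℝ, 2 < a → ∀ M : ℕ → ℕ,
    (∀ p : ℕ, p.Prime → 500 * (Real.log p / Real.log (Real.log p)) ≤ M p) →
    ∀ w : ℕ → ℝ, (∀ j, 0 ≤ w j) → w 0 = 0 → HasSum w 1 →
      ((∀ j, 1 ≤ j → Tendsto (P j) atTop (nhds (w j))) ↔
        ∀ k, 1 ≤ k → Tendsto (F a M 0 k) atTop (nhds (∑' j, w j / (j : ℝ) ^ k))) :=
  fun a ha M hM => partD a ha M hM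

end Pool.Agent.Results.MP_d0fd9b_nt.LawOfClassNumber
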