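import Pool.Agent.Q276.PL.Mean2

/-!
# The mean value of the class numbers of the fields `ℚ(√p)`

For every `δ > 0` the sum of the class numbers `h(p)` of the real quadratic fields `ℚ(√p)` over the
primes `p ≤ N` is at most `C N^(3/2) / (log N)^(5/2 - δ)`: the mean value of `h(p)` over the primes up
to `N` is at most `C √N / (log N)^(3/2 - δ)`.  The fields with a fundamental unit at most
`exp((log N)^(3/2 - δ))` are few (exceptional set `N exp(-(log N)^(δ/8))`, proved with the determinant
method); for the others the class number formula gives `h(p) ≤ √p L(1, χ) / (log N)^(3/2 - δ)`, and the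
mean value of `L(1, χ)` over these fields is bounded.
-/

set_option autoImplicit false

namespace Pool.Agent.Results.MP_d0fd9b_nt.MeanClassNumber

open Finset NumberField

/-- the real quadratic field of the square root of `d` -/
noncomputable abbrev QS (d : ℕ) : IntermediateField ℚ ℝ :=
  IntermediateField.adjoin ℚ {Real.sqrt (d : ℝ)}

theorem sqrt_integral (d : ℕ) : IsIntegral ℚ (Real.sqrt (d : ℝ)) := by
  refine ⟨Polynomial.X ^ 2 - Polynomial.C (d : ℚ), Polynomial.monic_X_pow_sub_C _ (by norm_num), ?_⟩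
  simp [Real.sq_sqrt (show (0 : ℝ) ≤ d by positivity)]

noncomputable instance (d : ℕ) : NumberField (QS d) := by
  have : FiniteDimensional ℚ (QS d) := IntermediateField.adjoin.finiteDimensional (sqrt_integral d)
  exact { to_charZero := inferInstance, to_finiteDimensional := this }

/-- the class number of the field of the square root of `d` -/
noncomputable def h (d : ℕ) : ℕ := NumberField.classNumber (QS d)

theorem finrank_QS (p : ℕ) (hp : p.Prime) : Module.finrank ℚ (QS p) = 2 := by
  have h0 : (0 : ℝ) ≤ p := by positivity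
  rw [IntermediateField.adjoin.finrank (sqrt_integral p)]
  have h1 : (minpoly ℚ (Real.sqrt (p : ℝ))).natDegree ≤ 2 := by
    have hd : minpoly ℚ (Real.sqrt (p : ℝ)) ∣ Polynomial.X ^ 2 - Polynomial.C (p : ℚ) := by
      apply minpoly.dvd
      simp [Real.sq_sqrt h0]
    have h2 := Polynomial.natDegree_le_of_dvd hd
      (Polynomial.X_pow_sub_C_ne_zero (by norm_num) _)
    rwa [Polynomial.natDegree_X_pow_sub_C] at h2
  have h2 : 0 < (minpoly ℚ (Real.sqrt (p : ℝ))).natDegree :=
    minpoly.natDegree_pos (sqrt_integral p)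
  have h3 : (minpoly ℚ (Real.sqrt (p : ℝ))).natDegree ≠ 1 := by
    intro h
    have h4 := (minpoly.natDegree_eq_one_iff).1 h
    obtain ⟨q, hq⟩ := h4
    have h5 := hp.irrational_sqrt
    apply h5
    exact ⟨q, by simpa using hq⟩
  omega

theorem root_QS (p : ℕ) : ∃ x : QS p, x ^ 2 = (p : QS p) := by
  refine ⟨⟨Real.sqrt (p : ℝ), IntermediateField.mem_adjoin_simple_self ℚ _⟩, ?_⟩
  apply Subtype.ext
  push_cast
  exact Real.sq_sqrt (by positivity)

theorem isCl : Pool.Agent.Q276.PL.Mean.IsCl h := fun p hp =>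
  ⟨QS p, inferInstance, inferInstance, finrank_QS p hp, root_QS p, rfl⟩

/-- For every `δ > 0` there is `C` such that for all `N ≥ 3` the sum of `h(p)` over the primes
`p ≤ N` is at most `C N ^ (3/2) / (log N) ^ (5/2 - δ)`. -/
theorem result (δ : ℝ) (hδ : 0 < δ) : ∃ C : ℝ, ∀ N : ℕ, 3 ≤ N →
    ∑ p ∈ (Finset.Icc 1 N).filter Nat.Prime, (h p : ℝ) ≤
      C * ((N : ℝ) ^ (3 / 2 : ℝ) / Real.log N ^ (5 / 2 - δ)) := by
  obtain ⟨C, hC⟩ := Pool.Agent.Q276.PL.Mean.mean δ hδ
  exact ⟨C, fun N hN => by convert hC h isCl N hN⟩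

end Pool.Agent.Results.MP_d0fd9b_nt.MeanClassNumber
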